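import Pool.Agent.T9h97.RB.Spec

/-!
# (A) local lemma with the constant 11/10
-/

set_option autoImplicit false

open Finset

namespace Pool.Agent.T9h73.RB

open Pool.Agent.Helper208.Rainbow Pool.Agent.T9h97.RB

theorem s_lll : S_LLL := by
  intro κ α ι _ _ _ _ _ _ _ A F hA x hx0 hx1 Z hZ h
  classical
  obtain ⟨ω, hω⟩ := lll univ A F hA x hx0 (fun i => by linarith [hx1 i]) (by
    intro i _
    refine le_trans (h i) ?_
    apply mul_le_mul_of_nonneg_right _ (by positivity)
    apply mul_le_mul_of_nonneg_left _ (hx0 i)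
    set N := univ.filter (fun j => j ≠ i ∧ ¬ Disjoint (F i) (F j)) with hN
    have h1 : ∑ j ∈ N, x j ≤ (F i).card * Z := by
      have hsub : N ⊆ (F i).biUnion (fun k => univ.filter (fun j => k ∈ F j)) := by
        intro j hj
        rw [hN, mem_filter, not_disjoint_iff] at hj
        obtain ⟨-, -, k, hk1, hk2⟩ := hj
        rw [mem_biUnion]
        exact ⟨k, hk1, by simpa using hk2⟩
      calc ∑ j ∈ N, x j ≤ ∑ j ∈ (F i).biUnion (fun k => univ.filter (fun j => k ∈ F j)), x j :=
            sum_le_sum_of_subset_of_nonneg hsub (fun j _ _ => hx0 j)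
        _ ≤ ∑ k ∈ F i, ∑ j ∈ univ.filter (fun j => k ∈ F j), x j := by
            induction F i using Finset.induction_on with
            | empty => simp
            | @insert k S hk ih =>
              rw [biUnion_insert, sum_insert hk]
              refine le_trans ?_ (add_le_add_right ih _)
              rw [← sum_union_inter]
              have : 0 ≤ ∑ j ∈ (univ.filter (fun j => k ∈ F j)) ∩
                  (S.biUnion fun k => univ.filter (fun j => k ∈ F j)), x j :=
                sum_nonneg fun j _ => hx0 j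
              linarith
        _ ≤ ∑ k ∈ F i, Z := sum_le_sum fun k _ => hZ k
        _ = (F i).card * Z := by rw [sum_const, nsmul_eq_mul]
    have h2 : ∀ j, Real.exp (-(11 / 10 * x j)) ≤ 1 - x j := by
      intro j
      have h3 := hx0 j
      have h4 := hx1 j
      have h5 : Real.exp (-(11 / 10 * x j)) ≤ (1 + 11 / 10 * x j)⁻¹ := by
        rw [Real.exp_neg]
        apply inv_anti₀ (by linarith)
        linarith [Real.add_one_le_exp (11 / 10 * x j)]
      refine le_trans h5 ?_
      rw [inv_le_comm₀ (by linarith) (by linarith)]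
      rw [← one_div, div_le_iff₀ (by linarith)]
      nlinarith
    calc Real.exp (-(11 / 10 * ((F i).card * Z))) ≤ Real.exp (∑ j ∈ N, -(11 / 10 * x j)) := by
          apply Real.exp_le_exp.mpr
          rw [sum_neg_distrib, ← mul_sum]
          linarith
      _ = ∏ j ∈ N, Real.exp (-(11 / 10 * x j)) := Real.exp_sum _ _
      _ ≤ ∏ j ∈ N, (1 - x j) :=
          prod_le_prod (fun j _ => (Real.exp_pos _).le) (fun j _ => h2 j))
  exact ⟨ω, fun i => hω i (mem_univ i)⟩

theorem hasSum_from (f : ℕ → ℝ) (k : ℕ) (S : ℝ) (h : HasSum (fun n => f (n + k)) S) :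
    HasSum (fun s => if k ≤ s then f s else 0) S := by
  rw [← hasSum_nat_add_iff' k]
  have h1 : ∑ i ∈ range k, (if k ≤ i then f i else 0) = 0 := by
    refine sum_eq_zero fun i hi => ?_
    rw [if_neg]
    have := mem_range.1 hi
    omega
  rw [h1, sub_zero]
  have e : (fun n => if k ≤ n + k then f (n + k) else 0) = fun n => f (n + k) := by
    funext n
    rw [if_pos (by omega)]
  rw [e]
  exact h

theorem s_sum : S_Sum := by
  intro V _ N τ k D r hD hr hr1 hk hcard
  have h1r : 0 < 1 - r := by linarith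
  have hA : HasSum (fun s => ∑ y ∈ N, (if τ y ≤ s then r ^ s else 0))
      (∑ y ∈ N, r ^ (τ y) * (1 - r)⁻¹) := by
    refine hasSum_sum fun y _ => ?_
    refine hasSum_from (fun s => r ^ s) (τ y) _ ?_
    have h2 := (hasSum_geometric_of_lt_one hr hr1).mul_left (r ^ (τ y))
    have e : (fun n => r ^ (n + τ y)) = fun n => r ^ (τ y) * r ^ n := by
      funext n
      rw [pow_add]
      ring
    rw [e]
    exact h2
  have hB : HasSum (fun s : ℕ => if k ≤ s then D * s * r ^ s else 0)
      (D * r ^ k * (r / (1 - r) ^ 2) + D * k * r ^ k * (1 - r)⁻¹) := by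
    refine hasSum_from (fun s : ℕ => D * s * r ^ s) k _ ?_
    have h2 := (hasSum_coe_mul_geometric_of_norm_lt_one (r := r)
      (by rw [Real.norm_eq_abs, abs_of_nonneg hr]; exact hr1)).mul_left (D * r ^ k)
    have h3 := (hasSum_geometric_of_lt_one hr hr1).mul_left (D * k * r ^ k)
    have e : (fun n : ℕ => D * ((n + k : ℕ) : ℝ) * r ^ (n + k)) =
        fun n : ℕ => D * r ^ k * (n * r ^ n) + D * k * r ^ k * r ^ n := by
      funext n
      rw [pow_add]
      push_cast
      ring
    rw [e]
    exact h2.add h3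
  have hle : ∀ s : ℕ, ∑ y ∈ N, (if τ y ≤ s then r ^ s else 0) ≤
      if k ≤ s then D * s * r ^ s else 0 := by
    intro s
    split_ifs with hs
    · rw [← sum_filter, sum_const, nsmul_eq_mul]
      exact mul_le_mul_of_nonneg_right (hcard s hs) (pow_nonneg hr s)
    · refine le_of_eq (sum_eq_zero fun y hy => ?_)
      rw [if_neg]
      have := hk y hy
      omega
  have h4 := hasSum_le hle hA hB
  rw [← sum_mul] at h4
  have h5 : ∑ y ∈ N, r ^ (τ y) = (∑ y ∈ N, r ^ (τ y)) * (1 - r)⁻¹ * (1 - r) := by
    field_simp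
  rw [h5]
  calc (∑ y ∈ N, r ^ (τ y)) * (1 - r)⁻¹ * (1 - r) ≤
      (D * r ^ k * (r / (1 - r) ^ 2) + D * k * r ^ k * (1 - r)⁻¹) * (1 - r) :=
        mul_le_mul_of_nonneg_right h4 h1r.le
    _ = D * (k * r ^ k + r ^ (k + 1) / (1 - r)) := by
        rw [pow_succ]
        field_simp
        ring

end Pool.Agent.T9h73.RB
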