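import Pool.Agent.T9h97.RB.Spec2

set_option autoImplicit false

/-!
# (H) a graph that is not 2-colourable contains an odd cycle
-/

namespace Pool.Agent.T9h73.RB

open Pool.Agent.T9h97.RB

/-- a closed sequence of length `l` -/
def Cl {V : Type} (H : SimpleGraph V) (l : ℕ) : Prop :=
  ∃ c : ℕ → V, Odd l ∧ (∀ i < l, H.Adj (c i) (c (i + 1))) ∧ c l = c 0

theorem cyc : S_Cyc := by
  classical
  intro V H hH
  have h0 : ¬ H.Colorable 2 := by
    rintro ⟨f⟩
    refine hH ⟨fun v => decide (f v = 0), fun u v huv => ?_⟩
    have h1 := f.valid huv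
    have h2 : (f u : Fin 2) ≠ f v := h1
    intro h3
    apply h2
    have h4 : (f u = 0) ↔ (f v = 0) := by simpa using h3
    revert h4 h2
    generalize (f u : Fin 2) = a
    generalize (f v : Fin 2) = b
    revert a b
    decide
  have h1 : ∃ l, Cl H l := by
    rw [SimpleGraph.two_colorable_iff_forall_loop_even] at h0
    push Not at h0
    obtain ⟨u, w, hw⟩ := h0
    refine ⟨w.length, w.getVert, by simpa using hw, fun i hi => w.adj_getVert_succ hi, ?_⟩
    rw [w.getVert_length, w.getVert_zero]
  obtain ⟨c, hodd, hadj, hcl⟩ := Nat.find_spec h1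
  have hmin : ∀ m, m < Nat.find h1 → ¬ Cl H m := fun m hm => Nat.find_min h1 hm
  generalize Nat.find h1 = l at hodd hadj hcl hmin
  have hl : 0 < l := hodd.pos
  have hinj : ∀ i j, i < j → j < l → c i ≠ c j := by
    intro i j hij hj heq
    rcases Nat.even_or_odd (j - i) with he | ho
    · have h2 : Odd (l - (j - i)) := by
        rcases hodd with ⟨a, ha⟩
        rcases he with ⟨b, hb⟩
        exact ⟨a - b, by omega⟩
      refine hmin (l - (j - i)) (by omega) ⟨fun k => if k ≤ i then c k else c (k + (j - i)), h2, ?_, ?_⟩
      · intro k hk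
        show H.Adj (if k ≤ i then c k else c (k + (j - i)))
          (if k + 1 ≤ i then c (k + 1) else c (k + 1 + (j - i)))
        rcases lt_trichotomy k i with h | h | h
        · rw [if_pos h.le, if_pos (by omega)]
          exact hadj k (by omega)
        · subst h
          rw [if_pos le_rfl, if_neg (by omega), heq]
          have h3 := hadj j hj
          rwa [show k + 1 + (j - k) = j + 1 by omega]
        · rw [if_neg (by omega), if_neg (by omega)]
          have h3 := hadj (k + (j - i)) (by omega)
          rwa [show k + 1 + (j - i) = k + (j - i) + 1 by omega]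
      · show (if l - (j - i) ≤ i then c (l - (j - i)) else c (l - (j - i) + (j - i))) =
          (if 0 ≤ i then c 0 else c (0 + (j - i)))
        rw [if_neg (by omega), if_pos (Nat.zero_le _), show l - (j - i) + (j - i) = l by omega, hcl]
    · refine hmin (j - i) (by omega) ⟨fun k => c (i + k), ho, ?_, ?_⟩
      · intro k hk
        exact hadj (i + k) (by omega)
      · show c (i + (j - i)) = c (i + 0)
        rw [show i + (j - i) = j by omega, ← heq, add_zero]
  refine ⟨l, fun i => c (i % l), hodd, ?_, ?_, ?_⟩
  · intro i
    show H.Adj (c (i % l)) (c ((i + 1) % l))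
    have h2 : i % l < l := Nat.mod_lt _ hl
    have h3 := hadj (i % l) h2
    by_cases h4 : i % l + 1 = l
    · have h5 : (i + 1) % l = 0 := by
        rw [← Nat.mod_add_mod, h4, Nat.mod_self]
      rw [h5, ← hcl]
      rwa [h4] at h3
    · have h5 : (i + 1) % l = i % l + 1 := by
        rw [← Nat.mod_add_mod]
        exact Nat.mod_eq_of_lt (by omega)
      rw [h5]
      exact h3
  · intro i
    show c ((i + l) % l) = c (i % l)
    rw [Nat.add_mod_right]
  · intro i j hi hj hij
    have h2 : c i = c j := by
      have h3 : c (i % l) = c (j % l) := hij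
      rwa [Nat.mod_eq_of_lt hi, Nat.mod_eq_of_lt hj] at h3
    rcases lt_trichotomy i j with h | h | h
    · exact absurd h2 (hinj i j h hj)
    · exact h
    · exact absurd h2.symm (hinj j i h hi)

end Pool.Agent.T9h73.RB
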